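import Mathlib
import Pool.Agent.H28.Plane4

namespace Pool.Agent.Results.MP_4388f3_co.LogConv

open Pool.Agent.H28.Plane Configuration Filter Topology

theorem result {V₁ V₂ W₁ W₂ : Type} [Fintype V₁] [Fintype V₂] [Fintype W₁] [Fintype W₂]
    (E : V₁ → V₂ → Prop) (F : W₁ → W₂ → Prop) (hE : ∃ a b, E a b) (hF : ∃ a b, F a b) :
    ∃ c : ℝ, ∀ (P L : ℕ → Type) [∀ n, Membership (P n) (L n)] [∀ n, Fintype (P n)]
      [∀ n, Fintype (L n)] [∀ n, ProjectivePlane (P n) (L n)],
      Tendsto (fun n => ProjectivePlane.order (P n) (L n)) atTop atTop →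
      Tendsto (fun n => (-Real.log (tB E (P n) (L n))) / (-Real.log (tB F (P n) (L n))))
        atTop (𝓝 c) :=
  logconv E F hE hF

end Pool.Agent.Results.MP_4388f3_co.LogConv
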